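import Pool.Agent.U610.PC.Stm
import Pool.Agent.W174.HB.HM
import Pool.Agent.R847.QB.Meyer
import Pool.Agent.R847.QB.Iso
import Pool.Agent.R847.QB.Dir

/-!
Package HMN of project PC: the theorem of Hasse and Minkowski for diagonal forms in at least three
variables.
-/

set_option autoImplicit false

namespace Pool.Agent.U667.PC

open Pool.Agent.U610.PC
open Pool.Agent.W313.BMX (Splits)

theorem iso_scale {F : Type} [Field F] {n : ℕ} {a b c : Fin n → F} (hc : ∀ i, c i ≠ 0)
    (h : ∀ i, a i = b i * c i ^ 2) : Iso a ↔ Iso b := by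
  constructor
  · rintro ⟨y, hy, hs⟩
    refine ⟨fun i => c i * y i, fun h0 => hy ?_, ?_⟩
    · funext i
      have := congrFun h0 i
      simpa [hc i] using this
    · rw [← hs]
      refine Finset.sum_congr rfl fun i _ => ?_
      rw [h i]
      ring
  · rintro ⟨y, hy, hs⟩
    refine ⟨fun i => y i / c i, fun h0 => hy ?_, ?_⟩
    · funext i
      have := congrFun h0 i
      simpa [hc i] using this
    · rw [← hs]
      refine Finset.sum_congr rfl fun i _ => ?_
      have := hc i
      rw [h i]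
      field_simp

theorem iso3 {F : Type} [Field F] {d : Fin 3 → F} (h2 : d 2 ≠ 0) :
    Iso d ↔ Splits (-(d 0 * d 2)) (-(d 1 * d 2)) := by
  constructor
  · rintro ⟨y, hy, hs⟩
    rw [Fin.sum_univ_three] at hs
    refine ⟨y 0, y 1, d 2 * y 2, ?_, by linear_combination (d 2) * hs⟩
    by_contra hcon
    push Not at hcon
    obtain ⟨a0, a1, a2⟩ := hcon
    refine hy ?_
    funext i
    fin_cases i
    · exact a0
    · exact a1
    · exact (mul_eq_zero.1 a2).resolve_left h2
  · rintro ⟨x, y, z, h0, h1⟩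
    refine ⟨![x, y, z / d 2], fun h => ?_, ?_⟩
    · have e0 := congrFun h 0
      have e1 := congrFun h 1
      have e2 := congrFun h 2
      simp only [Matrix.cons_val_zero, Matrix.cons_val_one, Matrix.cons_val_two, Pi.zero_apply,
        Matrix.head_cons, Matrix.tail_cons, Matrix.cons_val, div_eq_zero_iff, h2, or_false] at e0 e1 e2
      rcases h0 with h | h | h
      · exact h e0
      · exact h e1
      · exact h e2
    · rw [Fin.sum_univ_three]
      simp only [Matrix.cons_val_zero, Matrix.cons_val_one, Matrix.cons_val]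
      field_simp
      linear_combination h1

theorem pos_not_iso {n : ℕ} {e : Fin n → ℝ} (h : ∀ i, 0 < e i) : ¬ Iso e := by
  rintro ⟨y, hy, hs⟩
  refine hy ?_
  rw [Finset.sum_eq_zero_iff_of_nonneg fun i _ => mul_nonneg (h i).le (sq_nonneg _)] at hs
  funext i
  have := hs i (Finset.mem_univ i)
  rcases mul_eq_zero.1 this with h1 | h1
  · exact absurd h1 (h i).ne'
  · exact pow_eq_zero_iff (two_ne_zero) |>.1 h1

theorem signs {n : ℕ} {D : Fin n → ℤ} (hD : ∀ i, D i ≠ 0) (h : Iso fun i => ((D i : ℤ) : ℝ)) :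
    (∃ i, 0 < D i) ∧ ∃ i, D i < 0 := by
  constructor
  · by_contra hcon
    push Not at hcon
    obtain ⟨y, hy, hs⟩ := h
    refine pos_not_iso (e := fun i => -((D i : ℤ) : ℝ)) (fun i => ?_) ⟨y, hy, ?_⟩
    · have h1 : D i < 0 := lt_of_le_of_ne (hcon i) (hD i)
      have h2 : ((D i : ℤ) : ℝ) < 0 := by exact_mod_cast h1
      simpa using h2
    · have : ∑ i, -((D i : ℤ) : ℝ) * y i ^ 2 = -∑ i, ((D i : ℤ) : ℝ) * y i ^ 2 := by
        rw [← Finset.sum_neg_distrib]
        exact Finset.sum_congr rfl fun i _ => by ring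
      rw [this, hs, neg_zero]
  · by_contra hcon
    push Not at hcon
    refine pos_not_iso (fun i => ?_) h
    have h1 : 0 < D i := lt_of_le_of_ne (hcon i) (hD i).symm
    show (0 : ℝ) < ((D i : ℤ) : ℝ)
    exact_mod_cast h1

theorem hm_int (hM : S_HM) (n : ℕ) (hn : 3 ≤ n) (D : Fin n → ℤ) (hD : ∀ i, D i ≠ 0)
    (hr : Iso fun i => ((D i : ℤ) : ℝ))
    (hp : ∀ (p : ℕ) [Fact p.Prime], Iso fun i => ((D i : ℤ) : ℚ_[p])) :
    Iso fun i => ((D i : ℤ) : ℚ) := by
  obtain rfl | rfl | h5 : n = 3 ∨ n = 4 ∨ 5 ≤ n := by omega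
  · have c : ∀ (F : Type) [Field F] [CharZero F], (Iso fun i => ((D i : ℤ) : F)) ↔
        Splits ((-(D 0 * D 2) : ℤ) : F) ((-(D 1 * D 2) : ℤ) : F) := by
      intro F _ _
      have h2 : ((D 2 : ℤ) : F) ≠ 0 := by exact_mod_cast hD 2
      rw [iso3 (d := fun i => ((D i : ℤ) : F)) h2]
      push_cast
      rfl
    rw [c ℚ]
    refine Pool.Agent.W174.HB.hm_ _ _ (neg_ne_zero.2 (mul_ne_zero (hD 0) (hD 2)))
      (neg_ne_zero.2 (mul_ne_zero (hD 1) (hD 2))) ((c ℝ).1 hr) fun p _ => (c ℚ_[p]).1 (hp p)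
  · exact hM D hD hr hp
  · obtain ⟨⟨i, hi⟩, j, hj⟩ := signs hD hr
    classical
    obtain ⟨t, ht, htc⟩ := Finset.exists_superset_card_eq (s := ({i, j} : Finset (Fin n))) (n := 5)
      ((Finset.card_le_two).trans (by norm_num)) (by rw [Fintype.card_fin]; exact h5)
    obtain ⟨f, hf⟩ : ∃ f : Fin 5 → Fin n, f = t.orderEmbOfFin htc := ⟨_, rfl⟩
    have hinj : Function.Injective f := by
      rw [hf]
      exact (t.orderEmbOfFin htc).injective
    have hrange : ∀ k ∈ t, ∃ l, f l = k := by
      intro k hk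
      have : k ∈ Set.range (t.orderEmbOfFin htc) := by
        rw [Finset.range_orderEmbOfFin]
        exact hk
      rw [hf]
      exact this
    obtain ⟨li, hli⟩ := hrange i (ht (by simp))
    obtain ⟨lj, hlj⟩ := hrange j (ht (by simp))
    obtain ⟨x, hx, hs⟩ := Pool.Agent.R847.QB.meyer Pool.Agent.R847.QB.iso_ Pool.Agent.R847.QB.dir_
      (fun l => D (f l)) (fun l => hD _) ⟨li, by rw [hli]; exact hi⟩ ⟨lj, by rw [hlj]; exact hj⟩
    refine ⟨Function.extend f x 0, fun h0 => hx ?_, ?_⟩
    · funext l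
      have := congrFun h0 (f l)
      rwa [hinj.extend_apply] at this
    · rw [← hs]
      symm
      refine Fintype.sum_of_injective f hinj _ _ (fun k hk => ?_) fun l => ?_
      · rw [Function.extend_apply' _ _ _ (by simpa using hk)]
        simp
      · rw [hinj.extend_apply]

theorem t_HMN (hM : S_HM) : S_HMN := by
  intro n hn d hd hr hp
  have key : ∀ (F : Type) [Field F] [CharZero F],
      (Iso fun i => (((d i).num * (d i).den : ℤ) : F)) ↔ Iso fun i => ((d i : ℚ) : F) := by
    intro F _ _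
    refine iso_scale (c := fun i => ((d i).den : F)) (fun i => ?_) fun i => ?_
    · exact_mod_cast (d i).den_nz
    · have h1 : ((d i).den : F) ≠ 0 := by exact_mod_cast (d i).den_nz
      have h2 : ((d i : ℚ) : F) = ((d i).num : F) / ((d i).den : F) := Rat.cast_def _
      rw [h2]
      push_cast
      field_simp
  have h := hm_int hM n hn (fun i => (d i).num * (d i).den)
    (fun i => mul_ne_zero (Rat.num_ne_zero.2 (hd i)) (by exact_mod_cast (d i).den_nz))
    ((key ℝ).2 hr) fun p _ => (key ℚ_[p]).2 (hp p)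
  have h2 := (key ℚ).1 h
  simpa only [Rat.cast_id] using h2

end Pool.Agent.U667.PC
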